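import Pool.Agent.K9h53.LX.Fin

/-!
Both signs of the Moebius function at the values of an arbitrary quadratic polynomial of nonsquare
discriminant, in every residue class.

Method. In the order of discriminant `b^2 - 4ac` the map `x + y ω ↦ x mod a` is multiplicative. The
theorem of Matomaki and Radziwill is proved for the Liouville function of the norm, twisted by a
character of the first coordinate modulo `a`, and gives a positive proportion of pairs of elements of
near angles with different signs; this gives sign changes among the factorisations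
`d e = a n^2 + b n + c`. Few of these products have a large square divisor. A factorisation
`A B = f(n)` with a prime `q = 1 + a i j` dividing `A = d q` is then resolved into the three
factorisations `(A + j β + a j^2 B, B)`, `(d, m)`, `(m, q (A + j β + a j^2 B))`, `β = f'(n)`,
`m = a d i^2 + β i + q B`, of the values at `n + j B`, `n + d i`, `n + d i + j m`; the product of the
three signs is the sign of the factorisation, and for suitable `i`, `j`, `q` the three values have
fewer repeated prime factors. So one gets rid of the square divisors.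
-/

set_option autoImplicit false

namespace Pool.Agent.Results.MP_a17b09_nt.BothParities

/-- the `k` such that `k^2` divides all the values `a n^2 + b n + c`, `n ≡ u mod q` -/
def commonSquares (a b c : ℤ) (q u : ℕ) : Set ℕ :=
  {k : ℕ | ∀ n : ℕ, n ≡ u [MOD q] → (k : ℤ) ^ 2 ∣ a * (n : ℤ) ^ 2 + b * n + c}

/-- the conditions of Conjecture F on `(a, b, c)` besides `a > 0` and the nonsquare discriminant -/
def Admissible (a b c : ℤ) : Prop := Int.gcd (Int.gcd a b : ℤ) c = 1 ∧ ¬ (Even (a + b) ∧ Even c)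

/-- the integers `1 ≤ n ≤ N`, `n ≡ u mod q`, for which `a n^2 + b n + c = k^2 m` with `μ(m) = s` -/
def values (a b c : ℤ) (q u k : ℕ) (s : ℤ) (N : ℕ) : Set ℕ :=
  {n : ℕ | 1 ≤ n ∧ n ≤ N ∧ n ≡ u [MOD q] ∧ ∃ m : ℕ,
    a * (n : ℤ) ^ 2 + b * n + c = (k : ℤ) ^ 2 * m ∧ ArithmeticFunction.moebius m = s}

/-- the pairs `(d, e)` of integers `1 ≤ d, e ≤ N` with `d e = a n^2 + b n + c` for some `n ≥ 1`,
`n ≡ u mod q`, and `d e = k^2 m` with `μ(m) = s` -/
def factorisations (a b c : ℤ) (q u k : ℕ) (s : ℤ) (N : ℕ) : Set (ℕ × ℕ) :=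
  {p : ℕ × ℕ | 1 ≤ p.1 ∧ p.1 ≤ N ∧ 1 ≤ p.2 ∧ p.2 ≤ N ∧
    (∃ n : ℕ, 1 ≤ n ∧ n ≡ u [MOD q] ∧ (p.1 : ℤ) * p.2 = a * (n : ℤ) ^ 2 + b * n + c) ∧
    ∃ m : ℕ, p.1 * p.2 = k ^ 2 * m ∧ ArithmeticFunction.moebius m = s}

/-- there is a largest common square divisor -/
lemma exists_greatest {a b c : ℤ} (hns : ¬ IsSquare (b ^ 2 - 4 * (a * c))) (q u : ℕ) :
    ∃ k : ℕ, IsGreatest (commonSquares a b c q u) k := by
  have h0 : a * (u : ℤ) ^ 2 + b * u + c ≠ 0 := Pool.Agent.K9h53.LX.fQ_ne_zero hns (u : ℤ)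
  have hne : (commonSquares a b c q u).Nonempty := ⟨1, fun n _ => by simp⟩
  have hbd : BddAbove (commonSquares a b c q u) := by
    refine ⟨(a * (u : ℤ) ^ 2 + b * u + c).natAbs, ?_⟩
    intro k hk
    have h1 := hk u rfl
    have h2 : k ∣ (a * (u : ℤ) ^ 2 + b * u + c).natAbs := by
      have h3 := Int.natAbs_dvd_natAbs.2 ((dvd_pow_self (k : ℤ) two_ne_zero).trans h1)
      rwa [Int.natAbs_natCast] at h3
    exact Nat.le_of_dvd (Int.natAbs_pos.2 h0) h2
  exact ⟨sSup (commonSquares a b c q u), Nat.sSup_mem hne hbd, fun k hk => le_csSup hbd hk⟩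

/-- the values of an admissible triple have no common prime divisor -/
lemma eq_one {a b c : ℤ} (h : Admissible a b c) {u k : ℕ}
    (hk : k ∈ commonSquares a b c 1 u) : k = 1 := by
  by_contra hcon
  obtain ⟨p, hp, hpk⟩ := Nat.exists_prime_and_dvd hcon
  obtain ⟨hg, h2⟩ := h
  have hpZ : Prime (p : ℤ) := Nat.prime_iff_prime_int.1 hp
  have hall : ∀ n : ℕ, (p : ℤ) ∣ a * (n : ℤ) ^ 2 + b * n + c := by
    intro n
    refine dvd_trans ?_ (hk n (Nat.modEq_one))
    exact (Int.natCast_dvd_natCast.2 hpk).trans (dvd_pow_self _ two_ne_zero)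
  have h0 := hall 0
  have h1 := hall 1
  have h3 := hall 2
  push_cast at h0 h1 h3
  have hc : (p : ℤ) ∣ c := by
    norm_num at h0
    exact h0
  have hab : (p : ℤ) ∣ a + b := by
    have h4 := dvd_sub h1 hc
    norm_num at h4
    exact h4
  have h4 : (p : ℤ) ∣ 2 * a := by
    have h5 := dvd_sub (dvd_sub h3 hc) (hab.mul_left 2)
    refine dvd_trans h5 (dvd_of_eq ?_)
    ring
  by_cases hp2 : p = 2
  · subst hp2
    exact h2 ⟨even_iff_two_dvd.2 (by exact_mod_cast hab), even_iff_two_dvd.2 (by exact_mod_cast hc)⟩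
  · have h5 : (p : ℤ) ∣ a := by
      rcases hpZ.dvd_or_dvd h4 with h5 | h5
      · have h6 : p ∣ 2 := by exact_mod_cast h5
        exact absurd ((Nat.prime_dvd_prime_iff_eq hp Nat.prime_two).1 h6) hp2
      · exact h5
    have h6 : (p : ℤ) ∣ b := (dvd_add_right h5).1 hab
    have h7 : (p : ℤ) ∣ (Int.gcd (Int.gcd a b : ℤ) c : ℤ) :=
      Int.dvd_coe_gcd (Int.dvd_coe_gcd h5 h6) hc
    rw [hg] at h7
    exact hpZ.not_isUnit (isUnit_of_dvd_one (by exact_mod_cast h7))

/-- Let `f = a n^2 + b n + c` have integral coefficients, `a > 0`, and nonsquare discriminant, and let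
`q ≥ 1`. Let `k^2` be the largest square which divides all the values `f n`, `n ≡ u mod q`
(`k = 1` if `q = 1` and `(a, b, c)` is admissible). Then for both signs `s`: for every `ε > 0` and all
large `N` at least `N / (log N)^(log 2 + ε)` of the integers `n ≤ N`, `n ≡ u mod q`, have
`f n = k^2 m` with `μ(m) = s`; and for some `κ > 0` and all large `N` there are at least `κ N` pairs
`(d, e)` of positive integers `d, e ≤ N` with `d e = f n` for some `n ≥ 1`, `n ≡ u mod q`, and
`d e = k^2 m` with `μ(m) = s`. -/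
theorem result (a b c : ℤ) (ha : 0 < a) (hns : ¬ IsSquare (b ^ 2 - 4 * a * c)) (q u : ℕ)
    (hq : 0 < q) : ∃ k : ℕ, IsGreatest (commonSquares a b c q u) k ∧
    (q = 1 → Admissible a b c → k = 1) ∧ ∀ s : ℤ, s = 1 ∨ s = -1 →
    (∀ ε : ℝ, 0 < ε → ∃ N₀ : ℕ, ∀ N : ℕ, N₀ ≤ N →
      (N : ℝ) / Real.log N ^ (Real.log 2 + ε) ≤ ((values a b c q u k s N).ncard : ℝ)) ∧
    ∃ κ : ℝ, 0 < κ ∧ ∃ N₀ : ℕ, ∀ N : ℕ, N₀ ≤ N →
      κ * N ≤ ((factorisations a b c q u k s N).ncard : ℝ) := by
  have hns' : ¬ IsSquare (b ^ 2 - 4 * (a * c)) := by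
    rwa [← mul_assoc]
  obtain ⟨k, hk⟩ := exists_greatest hns' q u
  refine ⟨k, hk, ?_, fun s hs => ?_⟩
  · rintro rfl hadm
    exact eq_one hadm hk.1
  · exact Pool.Agent.K9h53.LX.final_all a b c ha hns' q u k hq hk s hs

end Pool.Agent.Results.MP_a17b09_nt.BothParities
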