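import Pool.Agent.K9h10.LR.F3
import Pool.Agent.R460.SC.Ga

set_option autoImplicit false

/-!
# Conjecture F of Hardy and Littlewood for almost all discriminants `|D| ≤ X` and for almost all polynomials of height
`H`, in the ranges `t ≤ y` from `√X (log X)^(C+2)` up to `X / (log X)^B`

Fix an integer `a > 0`, and `A`, `C`.

(1) For every large `X` there is a set of at most `X / (log X)^A` integers (exceptional discriminants) such that for all
the admissible triples `(a, b, c)` whose discriminant `D = b² - 4 a c` has `|D| ≤ X` and is not exceptional, the product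
`C(a, b, c)` converges and for ALL `y` with `(|b| + √X) (log X)^(C+2) ≤ y ≤ X / (log X)^B`

`π_f(y) = 2 C(a, b, c) ∑_{t ≤ y, f(t) ≥ 2} 1 / log f(t) + O(y / (log X)^C)`,   `f(t) = a t² + b t + c`.

(2) For every large `H`, for all the pairs `|b|, |c| ≤ H` with at most `H² / (log H)^A` exceptions: if `(a, b, c)` is
admissible, the same formula holds for ALL `y` with `H (log H)^(C+3) ≤ y ≤ H² / (log H)^B`, with the error
`y / (log H)^C`.

So the polynomials are sifted in ranges much longer than the square root of the discriminant (the values `f(t)` are as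
large as `X² / (log X)^(2 B)`, the square of the number of the polynomials, respectively `H⁴ / (log H)^(2 B)`).

Proof (all in Lean, without any unproved hypothesis; `K9h10/LR`). Completing the square, only the `f` with
`0 ≤ b < 2 a` and `|c| ≤ X` have to be considered. On each cell, an interval of length `h = X / (log X)^β`, the function
`u` (`log` on the primes) is replaced by its projection on the additive characters with denominators `≤ (log X)^d`; by
the large sieve the difference `E` has small mean square over the classes modulo `q`, on average over `q ≤ 2 a N`, in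
EVERY cell. By the dispersion method the mean square over `|c| ≤ X` of `∑_{N < n ≤ N'} E (a n² + b n + c)` is a sum over
the differences `l = n' - n` of correlations of `E` with its values at the distances `≡ a l² + b l (mod 2 a l)` in
intervals of length `≪ X`, which are sums of `E` over classes modulo `2 a l` in at most `X / h` cells; so it is at most
`X N² / (log X)^A` for all `N` from `√(2X)` up to `X / (log X)^B`. The main term, the sum of the projection, is evaluated
for every `c` with the theorem of Siegel and Walfisz on long intervals, since the sequence `a n² + b n + c` is convex and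
its gaps are shorter than the cells; it is `(N' - N) 𝔖(c)` with the same `𝔖(c)` for all `N`. The number `𝔖(c)` is compared
with the product `2 C(a, b, c)` at `N = √(2X)`, by the theorem for the ranges `t ≤ √X` (`R460/SC`).
-/

namespace Pool.Agent.Results.MP_a17b09_nt.LongArgumentRanges

open Finset Filter Topology

/-- The polynomial. -/
def f (a b c : ℤ) (t : ℕ) : ℤ := a * (t : ℤ) ^ 2 + b * (t : ℤ) + c

/-- The triple `(a, b, c)`, `a > 0`, is admissible. -/
def Admissible (a b c : ℤ) : Prop :=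
  Int.gcd (Int.gcd a b : ℤ) c = 1 ∧ ¬ (Even (a + b) ∧ Even c) ∧ ¬ IsSquare (b ^ 2 - 4 * a * c)

/-- The products which define `C(a, b, c)`, over the primes `p ≤ z` (`jacobiSym Δ p` is the Legendre symbol). -/
noncomputable def partialC (a b c : ℤ) (z : ℕ) : ℝ :=
  (if Odd (a + b) then 1 / 2 else 1) *
    (∏ p ∈ (Icc 3 z).filter (fun p : ℕ => p.Prime ∧ (p : ℤ) ∣ a ∧ (p : ℤ) ∣ b), (p : ℝ) / (p - 1)) *
    ∏ p ∈ (Icc 3 z).filter (fun p : ℕ => p.Prime ∧ ¬ (p : ℤ) ∣ a),
      (1 - (jacobiSym (b ^ 2 - 4 * a * c) p : ℝ) / (p - 1))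

/-- `K = C(a, b, c)`: the products over the primes, in increasing order, converge to `K`. -/
def IsC (a b c : ℤ) (K : ℝ) : Prop := Tendsto (partialC a b c) atTop (𝓝 K)

/-- `π_f(y)`. -/
def count (a b c : ℤ) (y : ℕ) : ℕ := ((Icc 1 y).filter (fun t : ℕ => (f a b c t).toNat.Prime)).card

/-- The sum of `1 / log f(t)` over the `1 ≤ t ≤ y` with `f(t) ≥ 2`. -/
noncomputable def logSum (a b c : ℤ) (y : ℕ) : ℝ :=
  ∑ t ∈ (Icc 1 y).filter (fun t : ℕ => 2 ≤ f a b c t), 1 / Real.log ((f a b c t : ℤ) : ℝ)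

/-- The formula of Conjecture F for all the ranges `t ≤ y`, `y₁ ≤ y ≤ y₂`, with the error `y / L ^ C`. -/
def Formula (a b c : ℤ) (C : ℕ) (L y₁ y₂ : ℝ) : Prop :=
  ∃ K : ℝ, IsC a b c K ∧ ∀ y : ℕ, y₁ ≤ y → (y : ℝ) ≤ y₂ →
    |(count a b c y : ℝ) - 2 * K * logSum a b c y| ≤ y / L ^ C

open Classical in
/-- The pairs of integers `|b|, |c| ≤ H` for which `(a, b, c)` is admissible and the formula does not hold for all the
ranges `y₁ ≤ y ≤ y₂`. -/
noncomputable def exceptions (a : ℤ) (C H : ℕ) (y₁ y₂ : ℝ) : Finset (ℤ × ℤ) :=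
  (Icc (-(H : ℤ)) H ×ˢ Icc (-(H : ℤ)) H).filter (fun p =>
    Admissible a p.1 p.2 ∧ ¬ Formula a p.1 p.2 C (Real.log H) y₁ y₂)

lemma not_dvd {a b c : ℤ} (h : Admissible a b c) {p : ℕ} (hp : p.Prime) (ha : (p : ℤ) ∣ a) (hb : (p : ℤ) ∣ b) :
    ¬ (p : ℤ) ∣ c := by
  intro hc
  have h1 : (p : ℤ) ∣ (Int.gcd (Int.gcd a b : ℤ) c : ℤ) := Int.dvd_coe_gcd (Int.dvd_coe_gcd ha hb) hc
  rw [h.1] at h1
  have h2 : p ∣ 1 := by exact_mod_cast h1
  exact hp.one_lt.ne' (Nat.dvd_one.1 h2)

/-- completing the square: the parity condition and the local factors do not change -/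
lemma Sz_eq {a b c : ℤ} (hc : Admissible a b c) (k b0 c0 : ℤ) (hb0 : b = b0 + 2 * a * k)
    (hc0 : c0 = c - a * k ^ 2 - b0 * k) (z : ℕ) (hz : 2 ≤ z) :
    Pool.Agent.R460.SB.Sz (-a) (-b0) c0 z = 2 * partialC a b c z := by
  classical
  have hD : b0 ^ 2 - 4 * a * c0 = b ^ 2 - 4 * a * c := by rw [hb0, hc0]; ring
  have hpar : ¬ (Even (a + b0) ∧ Even c0) := by
    rintro ⟨h1, h2⟩
    apply hc.2.1
    have e1 : a + b = a + b0 + 2 * (a * k) := by rw [hb0]; ring
    have e2 : c = c0 + k * (a * k + b0) := by rw [hc0]; ring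
    refine ⟨?_, ?_⟩
    · rw [e1]
      exact h1.add (even_two_mul _)
    · rw [e2]
      apply h2.add
      have e3 : k * (a * k + b0) = k * (a + b0) + a * (k * (k - 1)) := by ring
      rw [e3]
      exact (h1.mul_left k).add ((Int.even_mul_pred_self k).mul_left a)
  have hdv : ∀ p : ℕ, (p : ℤ) ∣ a → ((p : ℤ) ∣ b ↔ (p : ℤ) ∣ b0) := by
    intro p hp
    rw [hb0]
    exact ⟨fun h => (dvd_add_left (Dvd.dvd.mul_right (Dvd.dvd.mul_left hp 2) k)).1 h,
      fun h => dvd_add h (Dvd.dvd.mul_right (Dvd.dvd.mul_left hp 2) k)⟩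
  have hdc : ∀ p : ℕ, p.Prime → (p : ℤ) ∣ a → (p : ℤ) ∣ b0 → ¬ (p : ℤ) ∣ c0 := by
    intro p hp h1 h2 h3
    apply not_dvd hc hp h1 ((hdv p h1).2 h2)
    have e2 : c = c0 + (a * k ^ 2 + b0 * k) := by rw [hc0]; ring
    rw [e2]
    exact dvd_add h3 (dvd_add (Dvd.dvd.mul_right h1 _) (Dvd.dvd.mul_right h2 _))
  have hr : ∀ p : ℕ,
      Pool.Agent.H373R2.T7.nuB (Pool.Agent.R460.SB.QS (-a) (-b0) c0) p = Pool.Agent.R460.SC.om a b0 c0 p := by
    intro p
    unfold Pool.Agent.R460.SC.om Pool.Agent.H373R2.T7.nuB Pool.Agent.R460.SB.QS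
    have e : ∀ m : ℕ, ((p : ℤ) ∣ c0 - (-a * (m : ℤ) ^ 2 + -b0 * (m : ℤ))) ↔
        (p : ℤ) ∣ a * (m : ℤ) ^ 2 + b0 * (m : ℤ) + c0 := by
      intro m
      have e1 : c0 - (-a * (m : ℤ) ^ 2 + -b0 * (m : ℤ)) = a * (m : ℤ) ^ 2 + b0 * (m : ℤ) + c0 := by ring
      rw [e1]
    congr 1
    ext m
    simp only [mem_filter, e]
  have e1 := Pool.Agent.R460.SC.cf_eq hpar (fun p hp h1 h2 => hdc p hp h1 h2) (fun p hp h2 hpa => by
    have hpa' : ¬ (p : ℤ) ∣ -a := by rwa [dvd_neg]
    have h1 := Pool.Agent.R460.SB.nu_leg (-a) (-b0) c0 hp (by omega) hpa'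
    have h3 : 4 * (-a) * c0 + (-b0) ^ 2 = b0 ^ 2 - 4 * a * c0 := by ring
    rw [h3, hr] at h1
    exact_mod_cast h1) hz
  rw [Pool.Agent.R460.SB.Sz_prod]
  have e2 : partialC a b c z = Pool.Agent.R460.SC.cf a b0 c0 z := by
    unfold partialC Pool.Agent.R460.SC.cf
    rw [hD]
    congr 2
    · have : Odd (a + b) ↔ Odd (a + b0) := by
        have e3 : a + b = a + b0 + 2 * (a * k) := by rw [hb0]; ring
        rw [e3, ← Int.not_even_iff_odd, ← Int.not_even_iff_odd, Int.even_add]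
        simp
      simp only [this]
    · apply prod_congr _ (fun _ _ => rfl)
      apply filter_congr
      intro p _
      constructor
      · rintro ⟨h1, h2, h3⟩
        exact ⟨h1, h2, (hdv p h2).1 h3⟩
      · rintro ⟨h1, h2, h3⟩
        exact ⟨h1, h2, (hdv p h2).2 h3⟩
  rw [e2, ← e1]
  unfold Pool.Agent.H373R2.T7.pz
  refine prod_congr rfl fun p _ => ?_
  rw [hr]

lemma count_eq (a b c : ℤ) (y : ℕ) : (count a b c y : ℝ) = Pool.Agent.K9h10.LR.cz a b c 0 y := by
  classical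
  unfold count Pool.Agent.K9h10.LR.cz
  rw [card_filter]
  push_cast
  refine sum_nbij' (fun t : ℕ => (t : ℤ)) (fun t => t.toNat) ?_ ?_ ?_ ?_ ?_
  · intro t ht
    rw [mem_Icc] at ht
    rw [mem_Ioc]
    omega
  · intro t ht
    rw [mem_Ioc] at ht
    rw [mem_Icc]
    omega
  · intro t _
    omega
  · intro t ht
    rw [mem_Ioc] at ht
    omega
  · intro t _
    rfl

lemma logSum_eq (a b c : ℤ) (y : ℕ) : logSum a b c y = Pool.Agent.K9h10.LR.lz a b c 0 y := by
  classical
  unfold logSum Pool.Agent.K9h10.LR.lz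
  rw [sum_filter]
  refine sum_nbij' (fun t : ℕ => (t : ℤ)) (fun t => t.toNat) ?_ ?_ ?_ ?_ ?_
  · intro t ht
    rw [mem_Icc] at ht
    rw [mem_Ioc]
    omega
  · intro t ht
    rw [mem_Ioc] at ht
    rw [mem_Icc]
    omega
  · intro t _
    omega
  · intro t ht
    rw [mem_Ioc] at ht
    omega
  · intro t _
    rfl

lemma formula_of {a b c : ℤ} (hc : Admissible a b c) (C : ℕ) (L y₁ y₂ : ℝ) (S : ℝ)
    (h1 : Tendsto (fun z : ℕ => Pool.Agent.R460.SB.Sz (-a) (-(b % (2 * a)))
      (c - a * (b / (2 * a)) ^ 2 - (b % (2 * a)) * (b / (2 * a))) z) atTop (𝓝 S))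
    (h2 : ∀ y : ℕ, y₁ ≤ y → (y : ℝ) ≤ y₂ →
      |Pool.Agent.K9h10.LR.cz a b c 0 y - S * Pool.Agent.K9h10.LR.lz a b c 0 y| ≤ y / L ^ C) :
    Formula a b c C L y₁ y₂ := by
  refine ⟨S / 2, ?_, fun y hy1 hy2 => ?_⟩
  · have e1 := h1.div_const 2
    refine e1.congr' ?_
    filter_upwards [eventually_ge_atTop 2] with z hz
    rw [Sz_eq hc (b / (2 * a)) (b % (2 * a)) _ (Int.emod_add_mul_ediv b (2 * a)).symm rfl z hz]
    ring
  · have e2 : 2 * (S / 2) = S := by ring
    rw [e2, count_eq, logSum_eq]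
    exact h2 y hy1 hy2

theorem result (a : ℤ) (ha : 0 < a) (A C : ℕ) : ∃ B X₀ : ℕ,
    (∀ X : ℕ, X₀ ≤ X → ∃ Ex : Finset ℤ, (Ex.card : ℝ) ≤ X / Real.log X ^ A ∧
      ∀ b c : ℤ, Admissible a b c → |b ^ 2 - 4 * a * c| ≤ (X : ℤ) → b ^ 2 - 4 * a * c ∉ Ex →
        Formula a b c C (Real.log X) (((|b| : ℤ) + Real.sqrt X) * Real.log X ^ (C + 2)) (X / Real.log X ^ B)) ∧
    (∀ H : ℕ, X₀ ≤ H →
      ((exceptions a C H (H * Real.log H ^ (C + 3)) ((H : ℝ) ^ 2 / Real.log H ^ B)).card : ℝ) ≤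
        (H : ℝ) ^ 2 / Real.log H ^ A) := by
  classical
  obtain ⟨B1, X1, h1⟩ := Pool.Agent.K9h10.LR.F2 ha A C
  obtain ⟨B2, X2, h2⟩ := Pool.Agent.K9h10.LR.F3 ha A C
  obtain ⟨X3, h3⟩ := Pool.Agent.K9h10.LR.ev_loglarge 1
  refine ⟨max B1 B2, max (max X1 X2) X3, fun X hX => ?_, fun H hH => ?_⟩
  · obtain ⟨ED, k1, k2⟩ := h1 X (by omega)
    have g3 := h3 X (by omega)
    have hL0 : 0 < Real.log (X : ℝ) := by linarith
    refine ⟨ED, k1, fun b c hadm hD hDE => ?_⟩
    obtain ⟨S, s1, s2⟩ := k2 b c hD hDE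
    refine formula_of hadm C _ _ _ S s1 (fun y hy1 hy2 => s2 y hy1 ?_)
    rw [le_div_iff₀ (by positivity)] at hy2
    refine le_trans ?_ hy2
    gcongr
    exact le_max_left _ _
  · obtain ⟨EP, k1, k2⟩ := h2 H (by omega)
    have g3 := h3 H (by omega)
    have hL0 : 0 < Real.log (H : ℝ) := by linarith
    refine le_trans ?_ k1
    have hsub : exceptions a C H (H * Real.log H ^ (C + 3)) ((H : ℝ) ^ 2 / Real.log H ^ max B1 B2) ⊆ EP := by
      rintro ⟨b, c⟩ hp
      unfold exceptions at hp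
      rw [mem_filter, mem_product, mem_Icc, mem_Icc] at hp
      obtain ⟨⟨hb, hc⟩, hadm, hno⟩ := hp
      simp only at hb hc hadm hno
      by_contra hcon
      apply hno
      obtain ⟨S, s1, s2⟩ := k2 b c (abs_le.2 hb) (abs_le.2 hc) hcon
      refine formula_of hadm C _ _ _ S s1 (fun y hy1 hy2 => s2 y hy1 ?_)
      rw [le_div_iff₀ (by positivity)] at hy2
      refine le_trans ?_ hy2
      gcongr
      exact le_max_right _ _
    exact_mod_cast card_le_card hsub

end Pool.Agent.Results.MP_a17b09_nt.LongArgumentRanges
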