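import Pool.Agent.K9h19.CR.Asm
import Pool.Agent.K9h19.CR.SR2
import Pool.Agent.R460.SC.Ga

set_option autoImplicit false

/-!
# Conjecture F of Hardy and Littlewood for short ranges of the argument, for almost all constant terms

Fix integers `a > 0` and `b`. For every place `u ≥ 0`, all but at most `X / (log X)^A` of the integers `1 ≤ c ≤ X` for
which `(a, b, c)` is admissible satisfy: the product `C(a, b, c)` converges, and for all `y ≥ X^(1/6) (log X)^D` with
`u + y ≤ √X (log X)^T`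

`#{u < t ≤ u + y : f(t) prime} = 2 C(a, b, c) ∑_{u < t ≤ u + y} 1 / log f(t) + O(y / (log X)^C)`,
`f(t) = a t² + b t + c`; in particular there is a `t` in every such interval for which `f(t)` is prime.

For `u = 0` this is the formula of Conjecture F for all the ranges `t ≤ y`, `y ≥ X^(1/6) (log X)^D`, while the known
formulas on average over the constant term need `y` of the size `X^(1/2)` or an average over the place as well.

Proof (all in Lean, without any unproved hypothesis): the mean square over `c` of the error term is an integral over the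
circle of the product of the exponential sum over the primes (less a sieve model) and the Weyl sum over `u < t ≤ u + y`;
the Weyl sum is small unless the frequency is within `(log X)^B / y²` of a rational number with a denominator
`≤ (log X)^B`, and there the integral is the mean square of the primes in a progression in the intervals of length
`y² (log X)^(-B) ≥ X^(1/3) (log X)^B'`, which is small (the prime number theorem in progressions in almost all short
intervals, proved in `K9h19/CR` by mean values of Dirichlet polynomials, with the theorem of Siegel and Walfisz).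
-/

namespace Pool.Agent.Results.MP_a17b09_nt.ShortArgumentRanges

open Finset Filter Topology

/-- The polynomial. -/
def f (a b c : ℤ) (t : ℕ) : ℤ := a * (t : ℤ) ^ 2 + b * (t : ℤ) + c

/-- The triple `(a, b, c)`, `a > 0`, is admissible. -/
def Admissible (a b c : ℤ) : Prop :=
  Int.gcd (Int.gcd a b : ℤ) c = 1 ∧ ¬ (Even (a + b) ∧ Even c) ∧ ¬ IsSquare (b ^ 2 - 4 * a * c)

/-- The products which define `C(a, b, c)`, over the primes `p ≤ z` (`jacobiSym Δ p` is the Legendre symbol). -/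
noncomputable def partialC (a b c : ℤ) (z : ℕ) : ℝ :=
  (if Odd (a + b) then 1 / 2 else 1) *
    (∏ p ∈ (Icc 3 z).filter (fun p : ℕ => p.Prime ∧ (p : ℤ) ∣ a ∧ (p : ℤ) ∣ b), (p : ℝ) / (p - 1)) *
    ∏ p ∈ (Icc 3 z).filter (fun p : ℕ => p.Prime ∧ ¬ (p : ℤ) ∣ a),
      (1 - (jacobiSym (b ^ 2 - 4 * a * c) p : ℝ) / (p - 1))

/-- `K = C(a, b, c)`: the products over the primes, in increasing order, converge to `K`. -/
def IsC (a b c : ℤ) (K : ℝ) : Prop := Tendsto (partialC a b c) atTop (𝓝 K)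

/-- The number of `u < t ≤ u + y` for which `f(t)` is prime; for `u = 0` this is `π_f(y)`. -/
def count (a b c : ℤ) (u y : ℕ) : ℕ := ((Ioc u (u + y)).filter (fun t : ℕ => (f a b c t).toNat.Prime)).card

/-- The conclusion for one constant term `c`. -/
def Good (a b : ℤ) (C D T X u : ℕ) (c : ℤ) : Prop :=
  ∃ K : ℝ, IsC a b c K ∧ ∀ y : ℕ,
    (X : ℝ) ^ (1 / 6 : ℝ) * Real.log X ^ D ≤ y → ((u : ℝ) + y) ^ 2 ≤ X * Real.log X ^ T →
      |(count a b c u y : ℝ) - 2 * K * ∑ t ∈ Ioc u (u + y), 1 / Real.log ((f a b c t : ℤ) : ℝ)| ≤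
        y / Real.log X ^ C ∧
      ∃ t ∈ Ioc u (u + y), (f a b c t).toNat.Prime

open Classical in
/-- The number of the integers `1 ≤ c ≤ X` for which `(a, b, c)` is admissible and the conclusion fails. -/
noncomputable def exceptions (a b : ℤ) (C D T X u : ℕ) : ℕ :=
  ((Icc 1 (X : ℤ)).filter (fun c : ℤ => Admissible a b c ∧ ¬ Good a b C D T X u c)).card

lemma not_dvd {a b c : ℤ} (h : Admissible a b c) {p : ℕ} (hp : p.Prime) (ha : (p : ℤ) ∣ a) (hb : (p : ℤ) ∣ b) :
    ¬ (p : ℤ) ∣ c := by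
  intro hc
  have h1 : (p : ℤ) ∣ (Int.gcd (Int.gcd a b : ℤ) c : ℤ) := Int.dvd_coe_gcd (Int.dvd_coe_gcd ha hb) hc
  rw [h.1] at h1
  have h2 : p ∣ 1 := by exact_mod_cast h1
  exact hp.one_lt.ne' (Nat.dvd_one.1 h2)

/-- an admissible polynomial has no fixed prime divisor -/
lemma no_fixed {a b c : ℤ} (h : Admissible a b c) (p : ℕ) (hp : p.Prime) : ∃ m : ℕ, ¬ (p : ℤ) ∣ f a b c m := by
  by_contra hcon
  push Not at hcon
  have h0 := hcon 0
  have h1 := hcon 1
  have h2 := hcon 2
  unfold f at h0 h1 h2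
  push_cast at h0 h1 h2
  have g0 : (p : ℤ) ∣ c := by simpa using h0
  have g1 : (p : ℤ) ∣ a + b := by
    have : (p : ℤ) ∣ (a * 1 ^ 2 + b * 1 + c) - c := dvd_sub h1 g0
    have e : (a * 1 ^ 2 + b * 1 + c) - c = a + b := by ring
    rwa [e] at this
  have g2 : (p : ℤ) ∣ 2 * a := by
    have : (p : ℤ) ∣ (a * 2 ^ 2 + b * 2 + c) - c - 2 * (a + b) := dvd_sub (dvd_sub h2 g0) (Dvd.dvd.mul_left g1 2)
    have e : (a * 2 ^ 2 + b * 2 + c) - c - 2 * (a + b) = 2 * a := by ring
    rwa [e] at this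
  by_cases hp2 : p = 2
  · subst hp2
    exact h.2.1 ⟨even_iff_two_dvd.2 (by exact_mod_cast g1), even_iff_two_dvd.2 (by exact_mod_cast g0)⟩
  · have hpz : Prime (p : ℤ) := Nat.prime_iff_prime_int.1 hp
    rcases hpz.dvd_or_dvd g2 with g | g
    · have : p ∣ 2 := by exact_mod_cast g
      exact hp2 ((Nat.prime_dvd_prime_iff_eq hp Nat.prime_two).1 this)
    · have gb : (p : ℤ) ∣ b := (dvd_add_right g).1 g1
      exact not_dvd h hp g gb g0

theorem result (a b : ℤ) (ha : 0 < a) (A C T : ℕ) :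
    ∃ D X₀ : ℕ, ∀ X : ℕ, X₀ ≤ X → ∀ u : ℕ, (exceptions a b C D T X u : ℝ) ≤ X / Real.log X ^ A := by
  classical
  obtain ⟨D, X₀, h0⟩ := Pool.Agent.K9h19.CR.fin_short (b := b) Pool.Agent.K9h19.CR.s_chr
    Pool.Agent.K9h19.CR.s_moc ha A C T
  refine ⟨D, X₀, fun X hX u => ?_⟩
  obtain ⟨Bad, h1, h2⟩ := h0 X hX u
  refine le_trans ?_ h1
  unfold exceptions
  have hf : ∀ (c : ℤ) (t : ℕ), Pool.Agent.R460.SB.fv (-a) (-b) c t = f a b c t := by
    intro c t
    unfold Pool.Agent.R460.SB.fv f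
    ring
  have hr : ∀ (c : ℤ) (p : ℕ),
      Pool.Agent.H373R2.T7.nuB (Pool.Agent.R460.SB.QS (-a) (-b) c) p = Pool.Agent.R460.SC.om a b c p := by
    intro c p
    unfold Pool.Agent.R460.SC.om Pool.Agent.H373R2.T7.nuB Pool.Agent.R460.SB.QS
    have e : ∀ m : ℕ, ((p : ℤ) ∣ c - (-a * (m : ℤ) ^ 2 + -b * (m : ℤ))) ↔
        (p : ℤ) ∣ a * (m : ℤ) ^ 2 + b * (m : ℤ) + c := by
      intro m
      have e1 : c - (-a * (m : ℤ) ^ 2 + -b * (m : ℤ)) = a * (m : ℤ) ^ 2 + b * (m : ℤ) + c := by ring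
      rw [e1]
    congr 1
    ext m
    simp only [mem_filter, e]
  have hs : ∀ c : ℤ, Admissible a b c → ∀ z : ℕ, 2 ≤ z →
      Pool.Agent.R460.SB.Sz (-a) (-b) c z = 2 * partialC a b c z := by
    intro c hc z hz
    have e1 := Pool.Agent.R460.SC.cf_eq hc.2.1 (fun p hp h1 h2 => not_dvd hc hp h1 h2) (fun p hp h2 hpa => by
      have hpa' : ¬ (p : ℤ) ∣ -a := by rwa [dvd_neg]
      have h1 := Pool.Agent.R460.SB.nu_leg (-a) (-b) c hp (by omega) hpa'
      have h3 : 4 * (-a) * c + (-b) ^ 2 = b ^ 2 - 4 * a * c := by ring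
      rw [h3, hr] at h1
      exact_mod_cast h1) hz
    rw [Pool.Agent.R460.SB.Sz_prod]
    have e2 : partialC a b c z = Pool.Agent.R460.SC.cf a b c z := rfl
    rw [e2, ← e1]
    unfold Pool.Agent.H373R2.T7.pz
    refine prod_congr rfl fun p _ => ?_
    rw [hr]
  have hg : ∀ c : ℤ, Admissible a b c → Pool.Agent.K9h19.CR.GoodS a b C D T X u c → Good a b C D T X u c := by
    intro c hc hgt
    obtain ⟨S, g2, g3⟩ := hgt
    simp only [hf] at g3
    refine ⟨S / 2, ?_, fun y hy1 hy2 => ?_⟩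
    · have e1 : Tendsto (fun z : ℕ => Pool.Agent.R460.SB.Sz (-a) (-b) c z / 2) atTop (𝓝 (S / 2)) := g2.div_const 2
      refine e1.congr' ?_
      filter_upwards [eventually_ge_atTop 2] with z hz
      rw [hs c hc z hz]
      ring
    · have e2 : 2 * (S / 2) = S := by ring
      rw [e2]
      obtain ⟨g4, g5⟩ := g3 y hy1 hy2
      exact ⟨g4, g5 (fun p hp => no_fixed hc p hp)⟩
  have hsub : (Icc 1 (X : ℤ)).filter (fun c : ℤ => Admissible a b c ∧ ¬ Good a b C D T X u c) ⊆ Bad := by
    intro c hc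
    rw [mem_filter, mem_Icc] at hc
    by_contra hcB
    exact hc.2.2 (hg c hc.2.1 (h2 c hc.1.1 hc.1.2 hcB))
  exact_mod_cast card_le_card hsub

end Pool.Agent.Results.MP_a17b09_nt.ShortArgumentRanges
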