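import Pool.Agent.K9h19.CR.Asm
import Pool.Agent.K9h19.CR.VR6
import Pool.Agent.R460.SC.Ga

set_option autoImplicit false

/-!
# The variance of the number of the prime values in short windows, for almost all quadratic polynomials

Fix integers `a > 0` and `H`, and let `f(t) = a t² + b t + c` with `B < b ≤ B + K`, `1 ≤ c ≤ X`, where
`B + K ≤ √(H X)` and `K ≥ (log X)^D`. Outside a set of `X K / (log X)^A` pairs `(b, c)` the product `C(a, b, c)` of
Conjecture F converges, and for every window `(u, u + y]` with `u + y ≤ √(H X)` and `y K ≥ X^(1/3) (log X)^D`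

`∑_(b, c) |#{u < t ≤ u + y : f(t) prime} - 2 C(a, b, c) ∑_(u < t ≤ u + y) 1 / log f(t)|²`

is at most `12700 ((a + 1) H + 1) X K y / log X + X K y² / (log X)^A`, for every `y ≥ 1`. The first term is (up to the
constant) the variance of independent events of the probabilities `2 C / log f(t)`, so the bound has the true order
for the windows of every length `y ≤ (log X)^(A - 1)`.

In particular (second part) the formula of Conjecture F holds in the window `(u, u + y]`, with an error `ε y / log X`, and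
there is a prime value in it, for all but `ε X K` of the admissible pairs, as soon as `y ≥ h(ε) log X`; this is the
shortest possible order of magnitude. For `y ≥ log X` it is enough that `b` runs over `X^(1/3) (log X)^D` integers.

Proof (all in Lean, without any unproved hypothesis): a pair `(b, c)` is a window at another place for one of `2 a`
polynomials with another constant term; the mean square over the places and the constant terms of the error term for
the primes less a sieve model is an integral over the circle, in which the sum over the places saves a factor `y`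
unless the frequency is within `(log X)^B / (y K)` of a rational number with denominator `≤ (log X)^B`, and there it
is the mean square of the primes in a progression in the intervals of length `y K (log X)^(-B)` (the prime number
theorem in progressions in almost all short intervals, proved in `K9h19/CR`, with the theorem of Siegel and Walfisz).
The model is compared with `C(a, b, c)` by its pair correlations over `(b, c)`.
-/

namespace Pool.Agent.Results.MP_a17b09_nt.VarianceOverPolynomials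

open Finset Filter Topology

/-- The polynomial. -/
def f (a b c : ℤ) (t : ℕ) : ℤ := a * (t : ℤ) ^ 2 + b * (t : ℤ) + c

/-- The triple `(a, b, c)`, `a > 0`, is admissible. -/
def Admissible (a b c : ℤ) : Prop :=
  Int.gcd (Int.gcd a b : ℤ) c = 1 ∧ ¬ (Even (a + b) ∧ Even c) ∧ ¬ IsSquare (b ^ 2 - 4 * a * c)

/-- The products which define `C(a, b, c)`, over the primes `p ≤ z` (`jacobiSym Δ p` is the Legendre symbol). -/
noncomputable def partialC (a b c : ℤ) (z : ℕ) : ℝ :=
  (if Odd (a + b) then 1 / 2 else 1) *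
    (∏ p ∈ (Icc 3 z).filter (fun p : ℕ => p.Prime ∧ (p : ℤ) ∣ a ∧ (p : ℤ) ∣ b), (p : ℝ) / (p - 1)) *
    ∏ p ∈ (Icc 3 z).filter (fun p : ℕ => p.Prime ∧ ¬ (p : ℤ) ∣ a),
      (1 - (jacobiSym (b ^ 2 - 4 * a * c) p : ℝ) / (p - 1))

/-- `K = C(a, b, c)`: the products over the primes, in increasing order, converge to `K`. -/
def IsC (a b c : ℤ) (K : ℝ) : Prop := Tendsto (partialC a b c) atTop (𝓝 K)

/-- The number of `u < t ≤ u + y` for which `f(t)` is prime; for `u = 0` this is `π_f(y)`. -/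
def count (a b c : ℤ) (u y : ℕ) : ℕ := ((Ioc u (u + y)).filter (fun t : ℕ => (f a b c t).toNat.Prime)).card

/-- The deviation of the number of the prime values in the window `(u, u + y]` from the formula with the constant `C`. -/
noncomputable def dev (a b c : ℤ) (C : ℝ) (u y : ℕ) : ℝ :=
  (count a b c u y : ℝ) - 2 * C * ∑ t ∈ Ioc u (u + y), 1 / Real.log ((f a b c t : ℤ) : ℝ)

open Classical in
/-- The pairs `(b, c)`, `B < b ≤ B + K`, `1 ≤ c ≤ X`, for which `(a, b, c)` is admissible. -/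
noncomputable def pairs (a : ℤ) (B K X : ℕ) : Finset (ℕ × ℕ) :=
  (Ioc B (B + K) ×ˢ Ioc 0 X).filter (fun x : ℕ × ℕ => Admissible a x.1 x.2)

/-- The conclusion for one polynomial and one window. -/
def Good (a b c : ℤ) (ε : ℝ) (X u y : ℕ) : Prop :=
  ∃ C : ℝ, IsC a b c C ∧ |dev a b c C u y| ≤ ε * (y / Real.log X) ∧ ∃ t ∈ Ioc u (u + y), (f a b c t).toNat.Prime

open Classical in
/-- The number of the pairs for which the conclusion fails. -/
noncomputable def exceptions (a : ℤ) (ε : ℝ) (B K X u y : ℕ) : ℕ :=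
  ((pairs a B K X).filter (fun x : ℕ × ℕ => ¬ Good a x.1 x.2 ε X u y)).card

lemma not_dvd {a b c : ℤ} (h : Admissible a b c) {p : ℕ} (hp : p.Prime) (ha : (p : ℤ) ∣ a) (hb : (p : ℤ) ∣ b) :
    ¬ (p : ℤ) ∣ c := by
  intro hc
  have h1 : (p : ℤ) ∣ (Int.gcd (Int.gcd a b : ℤ) c : ℤ) := Int.dvd_coe_gcd (Int.dvd_coe_gcd ha hb) hc
  rw [h.1] at h1
  have h2 : p ∣ 1 := by exact_mod_cast h1
  exact hp.one_lt.ne' (Nat.dvd_one.1 h2)

/-- an admissible polynomial has no fixed prime divisor -/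
lemma no_fixed {a b c : ℤ} (h : Admissible a b c) (p : ℕ) (hp : p.Prime) : ∃ m : ℕ, ¬ (p : ℤ) ∣ f a b c m := by
  by_contra hcon
  push Not at hcon
  have h0 := hcon 0
  have h1 := hcon 1
  have h2 := hcon 2
  unfold f at h0 h1 h2
  push_cast at h0 h1 h2
  have g0 : (p : ℤ) ∣ c := by simpa using h0
  have g1 : (p : ℤ) ∣ a + b := by
    have : (p : ℤ) ∣ (a * 1 ^ 2 + b * 1 + c) - c := dvd_sub h1 g0
    have e : (a * 1 ^ 2 + b * 1 + c) - c = a + b := by ring
    rwa [e] at this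
  have g2 : (p : ℤ) ∣ 2 * a := by
    have : (p : ℤ) ∣ (a * 2 ^ 2 + b * 2 + c) - c - 2 * (a + b) := dvd_sub (dvd_sub h2 g0) (Dvd.dvd.mul_left g1 2)
    have e : (a * 2 ^ 2 + b * 2 + c) - c - 2 * (a + b) = 2 * a := by ring
    rwa [e] at this
  by_cases hp2 : p = 2
  · subst hp2
    exact h.2.1 ⟨even_iff_two_dvd.2 (by exact_mod_cast g1), even_iff_two_dvd.2 (by exact_mod_cast g0)⟩
  · have hpz : Prime (p : ℤ) := Nat.prime_iff_prime_int.1 hp
    rcases hpz.dvd_or_dvd g2 with g | g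
    · have : p ∣ 2 := by exact_mod_cast g
      exact hp2 ((Nat.prime_dvd_prime_iff_eq hp Nat.prime_two).1 this)
    · have gb : (p : ℤ) ∣ b := (dvd_add_right g).1 g1
      exact not_dvd h hp g gb g0

lemma fv_eq (a b c : ℤ) (t : ℕ) : Pool.Agent.R460.SB.fv (-a) (-b) c t = f a b c t := by
  unfold Pool.Agent.R460.SB.fv f
  ring

lemma Sz_eq {a b c : ℤ} (hc : Admissible a b c) {z : ℕ} (hz : 2 ≤ z) :
    Pool.Agent.R460.SB.Sz (-a) (-b) c z = 2 * partialC a b c z := by
  have hr : ∀ p : ℕ,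
      Pool.Agent.H373R2.T7.nuB (Pool.Agent.R460.SB.QS (-a) (-b) c) p = Pool.Agent.R460.SC.om a b c p := by
    intro p
    unfold Pool.Agent.R460.SC.om Pool.Agent.H373R2.T7.nuB Pool.Agent.R460.SB.QS
    have e : ∀ m : ℕ, ((p : ℤ) ∣ c - (-a * (m : ℤ) ^ 2 + -b * (m : ℤ))) ↔
        (p : ℤ) ∣ a * (m : ℤ) ^ 2 + b * (m : ℤ) + c := by
      intro m
      have e1 : c - (-a * (m : ℤ) ^ 2 + -b * (m : ℤ)) = a * (m : ℤ) ^ 2 + b * (m : ℤ) + c := by ring
      rw [e1]
    congr 1
    ext m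
    simp only [mem_filter, e]
  have e1 := Pool.Agent.R460.SC.cf_eq hc.2.1 (fun p hp h1 h2 => not_dvd hc hp h1 h2) (fun p hp h2 hpa => by
    have hpa' : ¬ (p : ℤ) ∣ -a := by rwa [dvd_neg]
    have h1 := Pool.Agent.R460.SB.nu_leg (-a) (-b) c hp (by omega) hpa'
    have h3 : 4 * (-a) * c + (-b) ^ 2 = b ^ 2 - 4 * a * c := by ring
    rw [h3, hr] at h1
    exact_mod_cast h1) hz
  rw [Pool.Agent.R460.SB.Sz_prod]
  have e2 : partialC a b c z = Pool.Agent.R460.SC.cf a b c z := rfl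
  rw [e2, ← e1]
  unfold Pool.Agent.H373R2.T7.pz
  refine prod_congr rfl fun p _ => ?_
  rw [hr]

lemma isC_of {a b c : ℤ} (hc : Admissible a b c) {S : ℝ}
    (h : Tendsto (fun z : ℕ => Pool.Agent.R460.SB.Sz (-a) (-b) c z) atTop (𝓝 S)) : IsC a b c (S / 2) := by
  refine (h.div_const 2).congr' ?_
  filter_upwards [eventually_ge_atTop 2] with z hz
  rw [Sz_eq hc hz]
  ring

lemma dev_eq (a : ℤ) (S : ℝ) (u y b c : ℕ) :
    Pool.Agent.K9h19.CR.dev a S u y b c = dev a b c (S / 2) u y := by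
  unfold Pool.Agent.K9h19.CR.dev dev count
  simp only [fv_eq]
  have e : 2 * (S / 2) = S := by ring
  rw [e]

theorem result (a : ℤ) (ha : 0 < a) (H : ℕ) (hH : 1 ≤ H) :
    (∀ A : ℕ, ∃ D X₀ : ℕ, ∀ X : ℕ, X₀ ≤ X → ∀ B K : ℕ, Real.log X ^ D ≤ K → ((B : ℝ) + K) ^ 2 ≤ H * X →
      ∃ E : Finset (ℕ × ℕ), (E.card : ℝ) ≤ X * K / Real.log X ^ A ∧ ∃ C : ℕ × ℕ → ℝ,
        (∀ x ∈ pairs a B K X \ E, IsC a x.1 x.2 (C x)) ∧
        ∀ u y : ℕ, 1 ≤ y → ((u : ℝ) + y) ^ 2 ≤ H * X → (X : ℝ) ^ (1 / 3 : ℝ) * Real.log X ^ D ≤ (y : ℝ) * K →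
          ∑ x ∈ pairs a B K X \ E, (dev a x.1 x.2 (C x) u y) ^ 2 ≤
            12700 * (((a : ℝ) + 1) * H + 1) * (X * K * y / Real.log X) +
              X * K * (y : ℝ) ^ 2 / Real.log X ^ A) ∧
    (∃ D : ℕ, ∀ ε : ℝ, 0 < ε → ∃ h : ℝ, ∃ X₀ : ℕ, ∀ X : ℕ, X₀ ≤ X → ∀ B K : ℕ,
      Real.log X ^ D ≤ K → ((B : ℝ) + K) ^ 2 ≤ H * X → ∀ u y : ℕ, h * Real.log X ≤ y →
      ((u : ℝ) + y) ^ 2 ≤ H * X → (X : ℝ) ^ (1 / 3 : ℝ) * Real.log X ^ D ≤ (y : ℝ) * K →
        (exceptions a ε B K X u y : ℝ) ≤ ε * (X * K)) := by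
  classical
  constructor
  · intro A
    obtain ⟨D, _, X₀, h0⟩ := Pool.Agent.K9h19.CR.fin_var Pool.Agent.K9h19.CR.s_chr
      Pool.Agent.K9h19.CR.s_moc ha hH A
    refine ⟨D, X₀, fun X hX B K hK hBK => ?_⟩
    obtain ⟨Ex, h1, S, h2, _, h3⟩ := h0 X hX B K hK hBK
    have hmem : ∀ x ∈ pairs a B K X \ Ex, (x.1 ∈ Ioc B (B + K) ∧ x.2 ∈ Ioc 0 (0 + X)) ∧
        Admissible a x.1 x.2 ∧ x ∉ Ex := by
      intro x hx
      rw [Finset.mem_sdiff] at hx
      unfold pairs at hx
      rw [mem_filter, mem_product] at hx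
      rw [zero_add]
      exact ⟨hx.1.1, hx.1.2, hx.2⟩
    refine ⟨Ex, h1, fun x => S x.1 x.2 / 2, fun x hx => ?_, fun u y hy hy1 hyK => ?_⟩
    · obtain ⟨m1, m2, m3⟩ := hmem x hx
      exact isC_of m2 (h2 x.1 m1.1 x.2 m1.2 m3)
    · refine le_trans ?_ (h3 u y hy hy1 hyK)
      have e : ∑ x ∈ pairs a B K X \ Ex, (dev a x.1 x.2 (S x.1 x.2 / 2) u y) ^ 2 =
          ∑ x ∈ pairs a B K X \ Ex, (Pool.Agent.K9h19.CR.dev a (S x.1 x.2) u y x.1 x.2) ^ 2 := by
        apply Finset.sum_congr rfl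
        intro x _
        rw [dev_eq]
      rw [e]
      apply Finset.sum_le_sum_of_subset_of_nonneg
      · intro x hx
        obtain ⟨m1, m2, m3⟩ := hmem x hx
        rw [Finset.mem_sdiff, mem_product]
        exact ⟨m1, m3⟩
      · intro _ _ _
        positivity
  · obtain ⟨D, h0⟩ := Pool.Agent.K9h19.CR.fin_almost Pool.Agent.K9h19.CR.s_chr
      Pool.Agent.K9h19.CR.s_moc ha hH
    refine ⟨D, fun ε hε => ?_⟩
    obtain ⟨h, _, X₀, h1⟩ := h0 ε hε
    refine ⟨h, X₀, fun X hX B K hK hBK u y hy hy1 hyK => ?_⟩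
    obtain ⟨Bad, h2, h3⟩ := h1 X hX B K hK hBK u y hy hy1 hyK
    refine le_trans ?_ h2
    have hsub : (pairs a B K X).filter (fun x : ℕ × ℕ => ¬ Good a x.1 x.2 ε X u y) ⊆ Bad := by
      intro x hx
      rw [mem_filter] at hx
      unfold pairs at hx
      rw [mem_filter, mem_product] at hx
      obtain ⟨⟨hx1, hadm⟩, hbad⟩ := hx
      by_contra hB
      apply hbad
      obtain ⟨S, g1, g2, g3⟩ := h3 x.1 hx1.1 x.2 (by rw [zero_add]; exact hx1.2) hB
      refine ⟨S / 2, isC_of hadm g1, by rw [← dev_eq]; exact g2, ?_⟩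
      simp only [fv_eq] at g3
      exact g3 (fun p hp => no_fixed hadm p hp)
    unfold exceptions
    exact_mod_cast card_le_card hsub

end Pool.Agent.Results.MP_a17b09_nt.VarianceOverPolynomials
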